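import Pool.Agent.W_MP_a3c811_h79.Lap.Sl2

/-! The powers of the operators of an `sl2`-triple. -/

noncomputable section

namespace Pool.Agent.H79L

open Module

universe v w

variable {K : Type v} [Field K] {E : Type w} [AddCommGroup E] [Module K E]
  {N f : Module.End K E} {s : ℤ → Module.End K E} {P : Finset ℤ}

theorem Sl.f_range (h : Sl N f s P) (k : ℕ) (x : E) :
    ∃ z, f ((N ^ (k + 1)) x) = (N ^ k) z := by
  have h1 : x = ∑ p ∈ P, s p x := by
    rw [← LinearMap.sum_apply, h.sum]; rfl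
  have h2 : ∀ p, ∃ z, f ((N ^ (k + 1)) (s p x)) = (N ^ k) z := fun p =>
    ⟨_, h.f_Npow (LinearMap.congr_fun (h.idem p) x) k⟩
  choose z hz using h2
  refine ⟨∑ p ∈ P, z p, ?_⟩
  conv_lhs => rw [h1]
  rw [map_sum, map_sum, map_sum]
  exact Finset.sum_congr rfl fun p _ => hz p

theorem Sl.fpow_range (h : Sl N f s P) (j m : ℕ) (x : E) :
    ∃ z, (f ^ j) ((N ^ (m + j)) x) = (N ^ m) z := by
  induction j generalizing m with
  | zero => exact ⟨x, by simp⟩
  | succ j ih =>
    obtain ⟨z, hz⟩ := ih (m + 1)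
    obtain ⟨y, hy⟩ := h.f_range m z
    refine ⟨y, ?_⟩
    rw [pow_succ', Module.End.mul_apply, show m + (j + 1) = m + 1 + j by ring, hz, hy]

theorem Sl.ker_pow_aux [CharZero K] (h : Sl N f s P) (j m : ℕ) (x : E)
    (hx : (f ^ j) ((N ^ (m + j)) x) = 0) : (N ^ (m + j)) x = 0 := by
  induction j generalizing m with
  | zero => simpa using hx
  | succ j ih =>
    rw [pow_succ', Module.End.mul_apply, show m + (j + 1) = m + 1 + j by ring] at hx
    obtain ⟨z, hz⟩ := h.fpow_range j (m + 1) x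
    rw [hz, pow_succ', Module.End.mul_apply] at hx
    have h1 := h.ker_f _ hx
    rw [← Module.End.mul_apply, ← pow_succ', ← hz] at h1
    rw [show m + (j + 1) = m + 1 + j by ring]
    exact ih (m + 1) h1

/-- `f ^ j` is injective on the image of `N ^ j`. -/
theorem Sl.ker_pow [CharZero K] (h : Sl N f s P) (j : ℕ) {x : E}
    (hx : (f ^ j) ((N ^ j) x) = 0) : (N ^ j) x = 0 := by
  have := h.ker_pow_aux j 0 x (by rwa [zero_add])
  rwa [zero_add] at this

/-- `N ^ j` is injective on the image of `f ^ j`. -/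
theorem Sl.ker_pow' [CharZero K] (h : Sl N f s P) (j : ℕ) {x : E}
    (hx : (N ^ j) ((f ^ j) x) = 0) : (f ^ j) x = 0 := h.symm.ker_pow j hx

end Pool.Agent.H79L
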